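import Mathlib

set_option autoImplicit false

/-! MP_a48a54_an, Q1 and Q2 (both answered positively). There is an ergodic interval exchange
transformation with a non-elementary (Zariski dense) piecewise constant `SL(2,ℝ)`-cocycle which is
both of parabolic and of elliptic type: over an irrational rotation of `[0,1)`, cut into six
intervals, take the cocycle `B(Tx)⁻¹ B(x)` with `B` constant on the three intervals `[0,1/3)`,
`[1/3,2/3)`, `[2/3,1)`, with the values `1, P, Q`, where `P, Q` are the elementary matrices which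
generate `SL(2,ℤ)`. It is conjugate by `B` to the constant identity cocycle. -/

namespace Pool.Agent.Results.MP_a48a54_an.BothTypesOccur

open MeasureTheory Set Matrix

/-- An interval exchange transformation on `d` intervals: `[0,1)` is cut into the half-open
intervals `[l j, r j)`, and the translated intervals `[l j + τ j, r j + τ j)` again tile `[0,1)`. -/
structure IET (d : ℕ) where
  l : Fin d → ℝ
  r : Fin d → ℝ
  τ : Fin d → ℝ
  l_lt_r : ∀ j, l j < r j
  sub : ∀ j, Ico (l j) (r j) ⊆ Ico 0 1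
  tile : ∀ x ∈ Ico (0 : ℝ) 1, ∃! j, x ∈ Ico (l j) (r j)
  image_sub : ∀ j, Ico (l j + τ j) (r j + τ j) ⊆ Ico 0 1
  image_tile : ∀ x ∈ Ico (0 : ℝ) 1, ∃! j, x ∈ Ico (l j + τ j) (r j + τ j)

open Classical in
/-- The map of the IET, translating each interval `[l j, r j)` by `τ j` (extended by the identity
outside of `[0,1)`). -/
noncomputable def IET.map {d : ℕ} (E : IET d) (x : ℝ) : ℝ :=
  x + ∑ j, if x ∈ Ico (E.l j) (E.r j) then E.τ j else 0

/-- Lebesgue measure on `[0,1)`. -/
noncomputable def μ : Measure ℝ := volume.restrict (Ico 0 1)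

/-- `ρ` is the piecewise constant cocycle with the values `M j` on `[l j, r j)`. -/
def IsPiecewiseConstant {d : ℕ} (E : IET d) (M : Fin d → SpecialLinearGroup (Fin 2) ℝ)
    (ρ : ℝ → SpecialLinearGroup (Fin 2) ℝ) : Prop :=
  ∀ j, ∀ x ∈ Ico (E.l j) (E.r j), ρ x = M j

/-- The subgroup generated by the `M j` is Zariski dense in `SL(2,ℝ)`: every polynomial in the
matrix entries which vanishes on the subgroup vanishes on `SL(2,ℝ)`. -/
def NonElementary {d : ℕ} (M : Fin d → SpecialLinearGroup (Fin 2) ℝ) : Prop :=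
  ∀ P : MvPolynomial (Fin 2 × Fin 2) ℝ,
    (∀ g ∈ Subgroup.closure (range M), MvPolynomial.eval (fun ij => g.1 ij.1 ij.2) P = 0) →
    ∀ g : SpecialLinearGroup (Fin 2) ℝ, MvPolynomial.eval (fun ij => g.1 ij.1 ij.2) P = 0

/-- A measurable map to `SL(2,ℝ)`. -/
def MeasurableSL (B : ℝ → SpecialLinearGroup (Fin 2) ℝ) : Prop :=
  ∀ i j, Measurable fun x => (B x).1 i j

/-- `ρ` is measurably conjugate over `T` to the matrix valued map `A'`. -/
def ConjugateTo (T : ℝ → ℝ) (ρ : ℝ → SpecialLinearGroup (Fin 2) ℝ)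
    (A' : ℝ → Matrix (Fin 2) (Fin 2) ℝ) : Prop :=
  ∃ B : ℝ → SpecialLinearGroup (Fin 2) ℝ, MeasurableSL B ∧
    ∀ᵐ x ∂μ, A' x = (B (T x) * ρ x * (B x)⁻¹ : SpecialLinearGroup (Fin 2) ℝ).1

/-- Parabolic type. -/
def Parabolic (T : ℝ → ℝ) (ρ : ℝ → SpecialLinearGroup (Fin 2) ℝ) : Prop :=
  ∃ v m : ℝ → ℝ, Measurable v ∧ Measurable m ∧ (∀ x, 0 < v x) ∧
    Integrable (fun x => Real.log (v x)) μ ∧ ∫ x, Real.log (v x) ∂μ = 0 ∧
    ConjugateTo T ρ (fun x => !![v x, m x; 0, 1 / v x])

/-- Elliptic type. -/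
def Elliptic (T : ℝ → ℝ) (ρ : ℝ → SpecialLinearGroup (Fin 2) ℝ) : Prop :=
  ∃ θ : ℝ → ℝ, Measurable θ ∧
    ConjugateTo T ρ (fun x => !![Real.cos (θ x), -Real.sin (θ x); Real.sin (θ x), Real.cos (θ x)])

/-! ### Zariski density -/

/-- Upper and lower elementary matrices. -/
def up (a : ℝ) : SpecialLinearGroup (Fin 2) ℝ := ⟨!![1, a; 0, 1], by simp [det_fin_two]⟩
def lo (a : ℝ) : SpecialLinearGroup (Fin 2) ℝ := ⟨!![1, 0; a, 1], by simp [det_fin_two]⟩

lemma up_add (a b : ℝ) : up (a + b) = up a * up b := by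
  apply Subtype.ext
  change (up (a + b)).1 = (up a).1 * (up b).1
  simp [up, add_comm]

lemma lo_add (a b : ℝ) : lo (a + b) = lo a * lo b := by
  apply Subtype.ext
  change (lo (a + b)).1 = (lo a).1 * (lo b).1
  simp [lo]

lemma up_zero : up 0 = 1 := by
  apply Subtype.ext
  change (up 0).1 = 1
  simp [up, Matrix.one_fin_two]

lemma lo_zero : lo 0 = 1 := by
  apply Subtype.ext
  change (lo 0).1 = 1
  simp [lo, Matrix.one_fin_two]

lemma up_nat (H : Subgroup (SpecialLinearGroup (Fin 2) ℝ)) (h : up 1 ∈ H) (n : ℕ) : up n ∈ H := by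
  induction n with
  | zero => rw [Nat.cast_zero, up_zero]; exact H.one_mem
  | succ n ih =>
    rw [Nat.cast_succ, up_add]
    exact H.mul_mem ih h

lemma lo_nat (H : Subgroup (SpecialLinearGroup (Fin 2) ℝ)) (h : lo 1 ∈ H) (n : ℕ) : lo n ∈ H := by
  induction n with
  | zero => rw [Nat.cast_zero, lo_zero]; exact H.one_mem
  | succ n ih =>
    rw [Nat.cast_succ, lo_add]
    exact H.mul_mem ih h

lemma eval_line (C D : Matrix (Fin 2) (Fin 2) ℝ) (b : ℝ) (P : MvPolynomial (Fin 2 × Fin 2) ℝ) :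
    (MvPolynomial.aeval (fun ij : Fin 2 × Fin 2 => Polynomial.C (C ij.1 ij.2) +
      Polynomial.X * Polynomial.C (D ij.1 ij.2)) P : Polynomial ℝ).eval b =
      MvPolynomial.eval (fun ij => C ij.1 ij.2 + b * D ij.1 ij.2) P := by
  induction P using MvPolynomial.induction_on with
  | C r => simp
  | add p₁ p₂ h₁ h₂ => rw [map_add, map_add, Polynomial.eval_add, h₁, h₂]
  | mul_X p₁ i h₁ =>
    rw [map_mul, map_mul, Polynomial.eval_mul, h₁]
    simp only [MvPolynomial.aeval_X, MvPolynomial.eval_X, Polynomial.eval_add, Polynomial.eval_mul,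
      Polynomial.eval_C, Polynomial.eval_X]

/-- A polynomial in the entries of `C + a D` which vanishes for all natural numbers `a` vanishes. -/
lemma poly_line (P : MvPolynomial (Fin 2 × Fin 2) ℝ) (C D : Matrix (Fin 2) (Fin 2) ℝ)
    (h : ∀ n : ℕ, MvPolynomial.eval (fun ij => C ij.1 ij.2 + n * D ij.1 ij.2) P = 0) (a : ℝ) :
    MvPolynomial.eval (fun ij => C ij.1 ij.2 + a * D ij.1 ij.2) P = 0 := by
  set q : Polynomial ℝ := MvPolynomial.aeval
    (fun ij : Fin 2 × Fin 2 => Polynomial.C (C ij.1 ij.2) + Polynomial.X * Polynomial.C (D ij.1 ij.2))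
    P with hq
  have hev : ∀ b : ℝ, q.eval b = MvPolynomial.eval (fun ij => C ij.1 ij.2 + b * D ij.1 ij.2) P := by
    intro b
    rw [hq]
    exact eval_line C D b P
  have hz : q = 0 := by
    apply Polynomial.eq_zero_of_infinite_isRoot
    refine Set.Infinite.mono ?_ (Set.infinite_range_of_injective (Nat.cast_injective (R := ℝ)))
    rintro _ ⟨n, rfl⟩
    change q.eval (n : ℝ) = 0
    rw [hev]
    exact h n
  rw [← hev, hz, Polynomial.eval_zero]

lemma up_line (P : MvPolynomial (Fin 2 × Fin 2) ℝ) (g h : SpecialLinearGroup (Fin 2) ℝ)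
    (H : ∀ n : ℕ, MvPolynomial.eval (fun ij => (g * up n * h).1 ij.1 ij.2) P = 0) (a : ℝ) :
    MvPolynomial.eval (fun ij => (g * up a * h).1 ij.1 ij.2) P = 0 := by
  set N : Matrix (Fin 2) (Fin 2) ℝ := !![0, 1; 0, 0] with hN
  set C : Matrix (Fin 2) (Fin 2) ℝ := g.1 * h.1 with hC
  set D : Matrix (Fin 2) (Fin 2) ℝ := g.1 * N * h.1 with hD
  have e : ∀ b : ℝ, (fun ij : Fin 2 × Fin 2 => (g * up b * h).1 ij.1 ij.2) =
      fun ij => C ij.1 ij.2 + b * D ij.1 ij.2 := by
    intro b
    have : (g * up b * h).1 = C + b • D := by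
      change g.1 * (up b).1 * h.1 = _
      have h1 : (up b).1 = 1 + b • N := by
        simp [up, hN, Matrix.one_fin_two]
      rw [h1, mul_add, add_mul, mul_one, Matrix.mul_smul, Matrix.smul_mul]
    funext ij
    rw [this]
    rfl
  rw [e a]
  apply poly_line
  intro n
  rw [← e n]
  exact H n

lemma lo_line (P : MvPolynomial (Fin 2 × Fin 2) ℝ) (g h : SpecialLinearGroup (Fin 2) ℝ)
    (H : ∀ n : ℕ, MvPolynomial.eval (fun ij => (g * lo n * h).1 ij.1 ij.2) P = 0) (a : ℝ) :
    MvPolynomial.eval (fun ij => (g * lo a * h).1 ij.1 ij.2) P = 0 := by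
  set N : Matrix (Fin 2) (Fin 2) ℝ := !![0, 0; 1, 0] with hN
  set C : Matrix (Fin 2) (Fin 2) ℝ := g.1 * h.1 with hC
  set D : Matrix (Fin 2) (Fin 2) ℝ := g.1 * N * h.1 with hD
  have e : ∀ b : ℝ, (fun ij : Fin 2 × Fin 2 => (g * lo b * h).1 ij.1 ij.2) =
      fun ij => C ij.1 ij.2 + b * D ij.1 ij.2 := by
    intro b
    have : (g * lo b * h).1 = C + b • D := by
      change g.1 * (lo b).1 * h.1 = _
      have h1 : (lo b).1 = 1 + b • N := by
        simp [lo, hN, Matrix.one_fin_two]
      rw [h1, mul_add, add_mul, mul_one, Matrix.mul_smul, Matrix.smul_mul]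
    funext ij
    rw [this]
    rfl
  rw [e a]
  apply poly_line
  intro n
  rw [← e n]
  exact H n

lemma exists_word (g : SpecialLinearGroup (Fin 2) ℝ) :
    ∃ a b c d : ℝ, g = up a * lo b * up c * lo d := by
  have key : ∀ g : SpecialLinearGroup (Fin 2) ℝ, g.1 1 0 ≠ 0 →
      ∃ a b c : ℝ, g = up a * lo b * up c := by
    intro g hg
    have hdet : g.1 0 0 * g.1 1 1 - g.1 0 1 * g.1 1 0 = 1 := by
      rw [← det_fin_two]
      exact g.2
    refine ⟨(g.1 0 0 - 1) / g.1 1 0, g.1 1 0, (g.1 1 1 - 1) / g.1 1 0, ?_⟩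
    apply Subtype.ext
    change g.1 = (up _).1 * (lo _).1 * (up _).1
    ext i j
    fin_cases i <;> fin_cases j
    · simp [up, lo, Matrix.mul_apply, Fin.sum_univ_two]
      field_simp
      ring
    · simp [up, lo, Matrix.mul_apply, Fin.sum_univ_two]
      field_simp
      linear_combination -hdet
    · simp [up, lo, Matrix.mul_apply, Fin.sum_univ_two]
    · simp [up, lo, Matrix.mul_apply, Fin.sum_univ_two]
      field_simp
      ring
  by_cases hg : g.1 1 0 = 0
  · have hdet : g.1 0 0 * g.1 1 1 - g.1 0 1 * g.1 1 0 = 1 := by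
      rw [← det_fin_two]
      exact g.2
    have h11 : g.1 1 1 ≠ 0 := by
      intro h
      rw [hg, h] at hdet
      norm_num at hdet
    obtain ⟨a, b, c, h⟩ := key (g * lo 1) (by
      change (g.1 * (lo 1).1) 1 0 ≠ 0
      simp [lo, Matrix.mul_apply, Fin.sum_univ_two, hg, h11])
    refine ⟨a, b, c, -1, ?_⟩
    rw [← h, mul_assoc, ← lo_add]
    simp [lo_zero]
  · obtain ⟨a, b, c, h⟩ := key g hg
    exact ⟨a, b, c, 0, by rw [lo_zero, mul_one]; exact h⟩

lemma zariski_dense (H : Subgroup (SpecialLinearGroup (Fin 2) ℝ)) (h1 : up 1 ∈ H) (h2 : lo 1 ∈ H)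
    (P : MvPolynomial (Fin 2 × Fin 2) ℝ)
    (hP : ∀ g ∈ H, MvPolynomial.eval (fun ij => g.1 ij.1 ij.2) P = 0)
    (g : SpecialLinearGroup (Fin 2) ℝ) : MvPolynomial.eval (fun ij => g.1 ij.1 ij.2) P = 0 := by
  obtain ⟨a, b, c, d, rfl⟩ := exists_word g
  have s1 : ∀ (a : ℝ) (n1 n2 n3 : ℕ), MvPolynomial.eval
      (fun ij => (up a * lo n1 * up n2 * lo n3).1 ij.1 ij.2) P = 0 := by
    intro a n1 n2 n3
    have := up_line P 1 (lo n1 * up n2 * lo n3) (fun n => hP _ (by
      rw [one_mul]
      exact H.mul_mem (up_nat H h1 n) (H.mul_mem (H.mul_mem (lo_nat H h2 n1) (up_nat H h1 n2))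
        (lo_nat H h2 n3)))) a
    simpa [mul_assoc] using this
  have s2 : ∀ (a b : ℝ) (n2 n3 : ℕ), MvPolynomial.eval
      (fun ij => (up a * lo b * up n2 * lo n3).1 ij.1 ij.2) P = 0 := by
    intro a b n2 n3
    have := lo_line P (up a) (up n2 * lo n3) (fun n => by
      simpa [mul_assoc] using s1 a n n2 n3) b
    simpa [mul_assoc] using this
  have s3 : ∀ (a b c : ℝ) (n3 : ℕ), MvPolynomial.eval
      (fun ij => (up a * lo b * up c * lo n3).1 ij.1 ij.2) P = 0 := by
    intro a b c n3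
    have := up_line P (up a * lo b) (lo n3) (fun n => s2 a b n n3) c
    simpa [mul_assoc] using this
  have := lo_line P (up a * lo b * up c) 1 (fun n => by
    simpa [mul_assoc] using s3 a b c n) d
  simpa [mul_assoc] using this

/-! ### The interval exchange -/

/-- The rotation number. -/
noncomputable def α : ℝ := Real.sqrt 2 / 5

lemma α_pos : 0 < α := by unfold α; positivity

lemma α_lt : α < 1 / 3 := by
  unfold α
  have : Real.sqrt 2 < 3 / 2 := by
    rw [Real.sqrt_lt' (by norm_num)]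
    norm_num
  linarith

lemma α_irr : Irrational α := by
  unfold α
  have := irrational_sqrt_two.div_natCast (m := 5) (by norm_num)
  simpa using this

/-- The rotation by `α` as an exchange of six intervals. -/
noncomputable def E : IET 6 where
  l := ![0, 1 / 3 - α, 1 / 3, 2 / 3 - α, 2 / 3, 1 - α]
  r := ![1 / 3 - α, 1 / 3, 2 / 3 - α, 2 / 3, 1 - α, 1]
  τ := ![α, α, α, α, α, α - 1]
  l_lt_r := by
    have h1 := α_pos
    have h2 := α_lt
    intro j
    fin_cases j <;> simp <;> linarith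
  sub := by
    have h1 := α_pos
    have h2 := α_lt
    intro j x hx
    fin_cases j <;> simp at hx ⊢ <;> constructor <;> linarith [hx.1, hx.2]
  tile := by
    have h1 := α_pos
    have h2 := α_lt
    rintro x ⟨hx0, hx1⟩
    by_cases c1 : x < 1 / 3 - α
    · refine ⟨0, by simp; constructor <;> linarith, ?_⟩
      intro j hj
      fin_cases j <;> simp at hj ⊢ <;> linarith [hj.1, hj.2]
    by_cases c2 : x < 1 / 3
    · refine ⟨1, by simp; constructor <;> linarith, ?_⟩
      intro j hj
      fin_cases j <;> simp at hj ⊢ <;> linarith [hj.1, hj.2]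
    by_cases c3 : x < 2 / 3 - α
    · refine ⟨2, by simp; constructor <;> linarith, ?_⟩
      intro j hj
      fin_cases j <;> simp at hj ⊢ <;> linarith [hj.1, hj.2]
    by_cases c4 : x < 2 / 3
    · refine ⟨3, by simp; constructor <;> linarith, ?_⟩
      intro j hj
      fin_cases j <;> simp at hj ⊢ <;> linarith [hj.1, hj.2]
    by_cases c5 : x < 1 - α
    · refine ⟨4, by simp; constructor <;> linarith, ?_⟩
      intro j hj
      fin_cases j <;> simp at hj ⊢ <;> linarith [hj.1, hj.2]
    · refine ⟨5, by simp; constructor <;> linarith, ?_⟩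
      intro j hj
      fin_cases j <;> simp at hj ⊢ <;> linarith [hj.1, hj.2]
  image_sub := by
    have h1 := α_pos
    have h2 := α_lt
    intro j x hx
    fin_cases j <;> simp at hx ⊢ <;> constructor <;> linarith [hx.1, hx.2]
  image_tile := by
    have h1 := α_pos
    have h2 := α_lt
    rintro x ⟨hx0, hx1⟩
    by_cases c0 : x < α
    · refine ⟨5, by simp; constructor <;> linarith, ?_⟩
      intro j hj
      fin_cases j <;> simp at hj ⊢ <;> linarith [hj.1, hj.2]
    by_cases c1 : x < 1 / 3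
    · refine ⟨0, by simp; constructor <;> linarith, ?_⟩
      intro j hj
      fin_cases j <;> simp at hj ⊢ <;> linarith [hj.1, hj.2]
    by_cases c2 : x < 1 / 3 + α
    · refine ⟨1, by simp; constructor <;> linarith, ?_⟩
      intro j hj
      fin_cases j <;> simp at hj ⊢ <;> linarith [hj.1, hj.2]
    by_cases c3 : x < 2 / 3
    · refine ⟨2, by simp; constructor <;> linarith, ?_⟩
      intro j hj
      fin_cases j <;> simp at hj ⊢ <;> linarith [hj.1, hj.2]
    by_cases c4 : x < 2 / 3 + α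
    · refine ⟨3, by simp; constructor <;> linarith, ?_⟩
      intro j hj
      fin_cases j <;> simp at hj ⊢ <;> linarith [hj.1, hj.2]
    · refine ⟨4, by simp; constructor <;> linarith, ?_⟩
      intro j hj
      fin_cases j <;> simp at hj ⊢ <;> linarith [hj.1, hj.2]

lemma map_eq {d : ℕ} (E : IET d) (j : Fin d) {x : ℝ} (hx : x ∈ Ico (E.l j) (E.r j)) :
    E.map x = x + E.τ j := by
  classical
  unfold IET.map
  congr 1
  rw [Finset.sum_eq_single j]
  · rw [if_pos hx]
  · intro i _ hij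
    rw [if_neg]
    intro hi
    exact hij ((E.tile x (E.sub j hx)).unique hi hx)
  · simp

lemma measurable_map {d : ℕ} (E : IET d) : Measurable E.map := by
  classical
  unfold IET.map
  refine measurable_id.add (Finset.measurable_sum _ fun j _ => ?_)
  exact Measurable.ite measurableSet_Ico measurable_const measurable_const

lemma E_map_mem {x : ℝ} (hx : x ∈ Ico (0 : ℝ) 1) : E.map x ∈ Ico (0 : ℝ) 1 := by
  obtain ⟨j, hj, -⟩ := E.tile x hx
  rw [map_eq E j hj]
  apply E.image_sub j
  exact ⟨by linarith [hj.1], by linarith [hj.2]⟩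

lemma E_map_coe {x : ℝ} (hx : x ∈ Ico (0 : ℝ) 1) :
    ((E.map x : ℝ) : UnitAddCircle) = (x : UnitAddCircle) + (α : UnitAddCircle) := by
  obtain ⟨j, hj, -⟩ := E.tile x hx
  rw [map_eq E j hj, AddCircle.coe_add]
  congr 1
  have hneg : ((α - 1 : ℝ) : UnitAddCircle) = (α : UnitAddCircle) := by
    rw [sub_eq_add_neg, AddCircle.coe_add, AddCircle.coe_neg, AddCircle.coe_period, neg_zero,
      add_zero]
  fin_cases j
  · rfl
  · rfl
  · rfl
  · rfl
  · rfl
  · exact hneg

/-- The fundamental domain section of the circle. -/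
noncomputable def sec (y : UnitAddCircle) : ℝ := (AddCircle.equivIco (1 : ℝ) 0 y : ℝ)

lemma sec_mem (y : UnitAddCircle) : sec y ∈ Ico (0 : ℝ) 1 := by
  have := (AddCircle.equivIco (1 : ℝ) 0 y).2
  simpa [sec] using this

lemma coe_sec (y : UnitAddCircle) : ((sec y : ℝ) : UnitAddCircle) = y :=
  (AddCircle.equivIco (1 : ℝ) 0).symm_apply_apply y

lemma sec_coe {x : ℝ} (hx : x ∈ Ico (0 : ℝ) 1) : sec (x : UnitAddCircle) = x := by
  unfold sec
  rw [AddCircle.equivIco_coe_eq (p := (1 : ℝ)) (a := 0) (x := x) (by simpa using hx)]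

lemma measurable_sec : Measurable sec :=
  measurable_subtype_coe.comp (AddCircle.measurableEquivIco 1 0).measurable

lemma sec_preserving : MeasurePreserving sec (volume : Measure UnitAddCircle) μ := by
  refine ⟨measurable_sec, ?_⟩
  have h1 := UnitAddCircle.measurePreserving_mk 0
  have hμ : (volume.restrict (Ioc (0 : ℝ) (0 + 1))) = μ := by
    unfold μ
    rw [zero_add]
    exact Measure.restrict_congr_set Ico_ae_eq_Ioc.symm
  rw [hμ] at h1
  rw [← h1.map_eq, Measure.map_map measurable_sec h1.measurable]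
  have h2 : (sec ∘ fun x : ℝ => (x : UnitAddCircle)) =ᵐ[μ] id := by
    unfold μ
    filter_upwards [ae_restrict_mem measurableSet_Ico] with x hx
    exact sec_coe hx
  rw [Measure.map_congr h2, Measure.map_id]

lemma ergodic_rotation : Ergodic (fun y : UnitAddCircle => y + (α : UnitAddCircle)) := by
  rw [AddCircle.ergodic_add_right, addOrderOf_eq_zero_iff, isOfFinAddOrder_iff_nsmul_eq_zero]
  rintro ⟨n, hn, h⟩
  rw [← AddCircle.coe_nsmul, AddCircle.coe_eq_zero_iff] at h
  obtain ⟨m, hm⟩ := h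
  rw [nsmul_eq_mul, zsmul_eq_mul, mul_one] at hm
  apply α_irr
  refine ⟨(m : ℚ) / n, ?_⟩
  have hn' : (n : ℝ) ≠ 0 := by
    have : 0 < n := hn
    positivity
  push_cast
  field_simp
  linarith

lemma ergodic_E : Ergodic E.map μ := by
  refine sec_preserving.ergodic_of_ergodic_semiconj ergodic_rotation (measurable_map E) ?_
  intro y
  have h1 := E_map_coe (sec_mem y)
  rw [coe_sec] at h1
  simp only
  rw [← h1, sec_coe (E_map_mem (sec_mem y))]

/-! ### The cocycle -/

/-- The transfer function. -/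
noncomputable def B (x : ℝ) : SpecialLinearGroup (Fin 2) ℝ :=
  if x < 1 / 3 then 1 else if x < 2 / 3 then up 1 else lo 1

lemma measurable_B : MeasurableSL B := by
  intro i j
  have h : (fun x => (B x).1 i j) = fun x => if x < 1 / 3 then
      (1 : SpecialLinearGroup (Fin 2) ℝ).1 i j else if x < 2 / 3 then (up 1).1 i j
        else (lo 1).1 i j := by
    funext x
    unfold B
    split_ifs <;> rfl
  rw [h]
  exact Measurable.ite measurableSet_Iio measurable_const
    (Measurable.ite measurableSet_Iio measurable_const measurable_const)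

/-- The cocycle. -/
noncomputable def ρ (x : ℝ) : SpecialLinearGroup (Fin 2) ℝ := (B (E.map x))⁻¹ * B x

/-- Its values. -/
noncomputable def M : Fin 6 → SpecialLinearGroup (Fin 2) ℝ :=
  ![1, (up 1)⁻¹, 1, (lo 1)⁻¹ * up 1, 1, lo 1]

lemma piecewise : IsPiecewiseConstant E M ρ := by
  have h1 := α_pos
  have h2 := α_lt
  intro j x hx
  unfold ρ
  rw [map_eq E j hx]
  have b1 : ∀ y : ℝ, y < 1 / 3 → B y = 1 := fun y hy => by unfold B; rw [if_pos hy]
  have b2 : ∀ y : ℝ, 1 / 3 ≤ y → y < 2 / 3 → B y = up 1 := fun y hy hy' => by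
    unfold B
    rw [if_neg (not_lt.2 hy), if_pos hy']
  have b3 : ∀ y : ℝ, 2 / 3 ≤ y → B y = lo 1 := fun y hy => by
    unfold B
    rw [if_neg (not_lt.2 (by linarith)), if_neg (not_lt.2 hy)]
  fin_cases j
  · have hx' : 0 ≤ x ∧ x < 1 / 3 - α := hx
    change (B (x + α))⁻¹ * B x = 1
    rw [b1 (x + α) (by linarith), b1 x (by linarith)]
    simp
  · have hx' : 1 / 3 - α ≤ x ∧ x < 1 / 3 := hx
    change (B (x + α))⁻¹ * B x = (up 1)⁻¹
    rw [b2 (x + α) (by linarith) (by linarith), b1 x (by linarith), mul_one]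
  · have hx' : 1 / 3 ≤ x ∧ x < 2 / 3 - α := hx
    change (B (x + α))⁻¹ * B x = 1
    rw [b2 (x + α) (by linarith) (by linarith), b2 x (by linarith) (by linarith),
      inv_mul_cancel]
  · have hx' : 2 / 3 - α ≤ x ∧ x < 2 / 3 := hx
    change (B (x + α))⁻¹ * B x = (lo 1)⁻¹ * up 1
    rw [b3 (x + α) (by linarith), b2 x (by linarith) (by linarith)]
  · have hx' : 2 / 3 ≤ x ∧ x < 1 - α := hx
    change (B (x + α))⁻¹ * B x = 1
    rw [b3 (x + α) (by linarith), b3 x (by linarith), inv_mul_cancel]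
  · have hx' : 1 - α ≤ x ∧ x < 1 := hx
    change (B (x + (α - 1)))⁻¹ * B x = lo 1
    rw [b1 (x + (α - 1)) (by linarith), b3 x (by linarith)]
    simp

lemma nonElementary : NonElementary M := by
  intro P hP g
  refine zariski_dense (Subgroup.closure (range M)) ?_ ?_ P hP g
  · have h : (up 1)⁻¹ ∈ Subgroup.closure (range M) := Subgroup.subset_closure ⟨1, rfl⟩
    exact (Subgroup.inv_mem_iff _).1 h
  · exact Subgroup.subset_closure ⟨5, rfl⟩

lemma conj_one (x : ℝ) : (B (E.map x) * ρ x * (B x)⁻¹ : SpecialLinearGroup (Fin 2) ℝ).1 = 1 := by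
  unfold ρ
  rw [mul_inv_cancel_left, mul_inv_cancel]
  rfl

/-- There are an ergodic interval exchange transformation of `[0,1)` and a non-elementary
piecewise constant `SL(2,ℝ)`-cocycle over it which is of parabolic type and also of elliptic
type. -/
theorem result : ∃ (d : ℕ) (_ : 2 ≤ d) (E : IET d), Ergodic E.map μ ∧
    ∃ (M : Fin d → SpecialLinearGroup (Fin 2) ℝ) (ρ : ℝ → SpecialLinearGroup (Fin 2) ℝ),
      IsPiecewiseConstant E M ρ ∧ NonElementary M ∧ Parabolic E.map ρ ∧ Elliptic E.map ρ := by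
  refine ⟨6, by norm_num, E, ergodic_E, M, ρ, piecewise, nonElementary, ?_, ?_⟩
  · refine ⟨fun _ => 1, fun _ => 0, measurable_const, measurable_const, fun _ => one_pos, ?_, ?_,
      B, measurable_B, Filter.Eventually.of_forall fun x => ?_⟩
    · simp
    · simp
    · rw [conj_one]
      simp [Matrix.one_fin_two]
  · refine ⟨fun _ => 0, measurable_const, B, measurable_B, Filter.Eventually.of_forall fun x => ?_⟩
    rw [conj_one]
    simp [Matrix.one_fin_two]

end Pool.Agent.Results.MP_a48a54_an.BothTypesOccur
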